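import Pool.Agent.helper62.HH.SpecD
import Pool.Agent.helper41.MS.HD2

/-! Row hh:CTG (MP_07c750_an): counting on an unstable arc with a displacement. -/

set_option autoImplicit false

open scoped MatrixGroups ContDiff Topology UpperHalfPlane ComplexConjugate
open UpperHalfPlane MeasureTheory Filter Set

namespace Pool.Agent.HH

open Pool.Agent.RS
open Pool.Agent.MS (bq)
open Pool.Agent.HV (FW)

theorem CTG_mul (A B : SL(2, ℝ)) (i j : Fin 2) : (A * B).1 i j = A.1 i 0 * B.1 0 j + A.1 i 1 * B.1 1 j := by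
  change (A.1 * B.1) i j = _
  rw [Matrix.mul_apply, Fin.sum_univ_two]

theorem CTG_ent (h : SL(2, ℝ)) (s τ x : ℝ) (i : Fin 2) :
    (h * lM s * aM τ * nM x).1 i 0 = (h.1 i 0 + h.1 i 1 * s) * Real.exp (τ / 2) ∧
      (h * lM s * aM τ * nM x).1 i 1 = (h.1 i 0 + h.1 i 1 * s) * Real.exp (τ / 2) * x +
        h.1 i 1 * Real.exp (-(τ / 2)) := by
  have l1 : (lM s).1 0 0 = 1 := rfl
  have l2 : (lM s).1 0 1 = 0 := rfl
  have l3 : (lM s).1 1 0 = s := rfl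
  have l4 : (lM s).1 1 1 = 1 := rfl
  have a1 : (aM τ).1 0 0 = Real.exp (τ / 2) := rfl
  have a2 : (aM τ).1 0 1 = 0 := rfl
  have a3 : (aM τ).1 1 0 = 0 := rfl
  have a4 : (aM τ).1 1 1 = Real.exp (-(τ / 2)) := rfl
  have n1 : (nM x).1 0 0 = 1 := rfl
  have n2 : (nM x).1 0 1 = x := rfl
  have n3 : (nM x).1 1 0 = 0 := rfl
  have n4 : (nM x).1 1 1 = 1 := rfl
  constructor
  · rw [CTG_mul, CTG_mul, CTG_mul, CTG_mul, CTG_mul, l1, l2, l3, l4, a1, a2, a3, a4, n1, n3]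
    ring
  · rw [CTG_mul, CTG_mul, CTG_mul, CTG_mul, CTG_mul, CTG_mul, CTG_mul, l1, l2, l3, l4, a1, a2, a3,
      a4, n2, n4]
    ring

theorem CTG_card (S : Finset ℤ) (D : ℝ) (hD : 0 ≤ D) (h : ∀ i ∈ S, ∀ j ∈ S, |(i : ℝ) - j| ≤ D) : (S.card : ℝ) ≤ D + 1 := by
  rcases S.eq_empty_or_nonempty with he | hne
  · rw [he, Finset.card_empty, Nat.cast_zero]
    linarith
  · have h1 : S ⊆ Finset.Icc (S.min' hne) (S.max' hne) := fun i hi =>
      Finset.mem_Icc.2 ⟨S.min'_le i hi, S.le_max' i hi⟩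
    have h2 := Finset.card_le_card h1
    rw [Int.card_Icc] at h2
    have h3 := h _ (S.max'_mem hne) _ (S.min'_mem hne)
    have h4 : S.min' hne ≤ S.max' hne := S.min'_le_max' hne
    have h5 : ((S.card : ℕ) : ℤ) ≤ S.max' hne + 1 - S.min' hne := by
      have : ((S.max' hne + 1 - S.min' hne).toNat : ℤ) = S.max' hne + 1 - S.min' hne := Int.toNat_of_nonneg (by omega)
      rw [← this]
      exact_mod_cast h2
    have h6 : ((S.card : ℕ) : ℝ) ≤ (S.max' hne : ℝ) + 1 - (S.min' hne : ℝ) := by exact_mod_cast h5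
    have h7 := le_abs_self ((S.max' hne : ℝ) - (S.min' hne : ℝ))
    linarith

/-- bounds for `exp (τ / 2)` -/
theorem CTG_exp (τ : ℝ) (h : |τ| ≤ 1 / 10) : 19 / 20 ≤ Real.exp (τ / 2) ∧ Real.exp (τ / 2) ≤ 20 / 19 := by
  have h1 := abs_le.1 h
  constructor
  · linarith [Real.add_one_le_exp (τ / 2), h1.1]
  · have h2 := Real.add_one_le_exp (-(τ / 2))
    have h3 : Real.exp (τ / 2) * Real.exp (-(τ / 2)) = 1 := by
      rw [← Real.exp_add, add_neg_cancel, Real.exp_zero]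
    have h4 : 19 / 20 ≤ Real.exp (-(τ / 2)) := by linarith [h1.2]
    have h5 := Real.exp_pos (τ / 2)
    nlinarith

/-- the entries of `h` from the entries of the displaced element -/
theorem CTG_inv (h : SL(2, ℝ)) (s τ x b v : ℝ) (hb8 : b ≤ 1 / 100) (hv : 0 ≤ v) (hv1 : v ≤ 1)
    (hτ : |τ| ≤ 1 / 10) (hx : |x| ≤ 1 / 10) (hb : 0 < b)
    (hq : bq b b (b * v) (h * lM s * aM τ * nM x)) :
    |h.1 0 0 + h.1 0 1 * s| ≤ 11 / 10 ∧ |h.1 1 0 + h.1 1 1 * s| ≤ 11 / 10 * (b * v) ∧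
      |h.1 0 1| ≤ 2 / 10 ∧ 9 / 10 ≤ h.1 1 1 ∧ h.1 1 1 ≤ 11 / 10 := by
  obtain ⟨q1, q2, q3, q4⟩ := hq
  have hbv : b * v ≤ 1 / 100 := by nlinarith
  have hbv0 : 0 ≤ b * v := mul_nonneg hb.le hv
  obtain ⟨E1, E2⟩ := CTG_exp τ hτ
  obtain ⟨E3, E4⟩ := CTG_exp (-τ) (by rw [abs_neg]; exact hτ)
  have e0 : -τ / 2 = -(τ / 2) := by ring
  rw [e0] at E3 E4
  have hEE : Real.exp (τ / 2) * Real.exp (-(τ / 2)) = 1 := by
    rw [← Real.exp_add, add_neg_cancel, Real.exp_zero]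
  rw [(CTG_ent h s τ x 0).1] at q1
  rw [(CTG_ent h s τ x 1).2] at q2
  rw [(CTG_ent h s τ x 0).2] at q3
  rw [(CTG_ent h s τ x 1).1] at q4
  obtain ⟨E, hE⟩ : ∃ E, E = Real.exp (τ / 2) := ⟨_, rfl⟩
  obtain ⟨E', hE'⟩ : ∃ E', E' = Real.exp (-(τ / 2)) := ⟨_, rfl⟩
  obtain ⟨p00, hp00⟩ : ∃ p, p = h.1 0 0 + h.1 0 1 * s := ⟨_, rfl⟩
  obtain ⟨p10, hp10⟩ : ∃ p, p = h.1 1 0 + h.1 1 1 * s := ⟨_, rfl⟩
  rw [← hE] at E1 E2 hEE q1 q2 q3 q4
  rw [← hE'] at E3 E4 hEE q2 q3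
  rw [← hp00] at q1 q3 ⊢
  rw [← hp10] at q2 q4 ⊢
  have a1 := abs_le.1 q1
  have a2 := abs_le.1 q2
  have a3 := abs_le.1 q3
  have hx1 := abs_le.1 hx
  have hE0 : 0 < E := by linarith
  have hE'0 : 0 < E' := by linarith
  -- products with x
  have c1 : |p00 * E * x| ≤ 101 / 1000 := by
    rw [abs_mul]
    have : |p00 * E| ≤ 101 / 100 := by
      rw [abs_le]
      constructor <;> linarith [a1.1, a1.2]
    calc |p00 * E| * |x| ≤ 101 / 100 * (1 / 10) := mul_le_mul this hx (abs_nonneg _) (by norm_num)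
      _ = 101 / 1000 := by norm_num
  have c2 : |p10 * E * x| ≤ 1 / 1000 := by
    rw [abs_mul]
    calc |p10 * E| * |x| ≤ 1 / 100 * (1 / 10) :=
          mul_le_mul (q4.trans hbv) hx (abs_nonneg _) (by norm_num)
      _ = 1 / 1000 := by norm_num
  have d1 := abs_le.1 c1
  have d2 := abs_le.1 c2
  have r0 : |p00| ≤ 11 / 10 := by
    have e1 : p00 = (p00 * E) * E' := by
      rw [mul_assoc, hEE, mul_one]
    rw [e1, abs_mul, abs_of_pos hE'0]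
    have : |p00 * E| ≤ 101 / 100 := by
      rw [abs_le]
      constructor <;> linarith [a1.1, a1.2]
    calc |p00 * E| * E' ≤ 101 / 100 * (20 / 19) := mul_le_mul this E4 hE'0.le (by norm_num)
      _ ≤ 11 / 10 := by norm_num
  have r1 : |p10| ≤ 11 / 10 * (b * v) := by
    have e1 : p10 = (p10 * E) * E' := by
      rw [mul_assoc, hEE, mul_one]
    rw [e1, abs_mul, abs_of_pos hE'0]
    calc |p10 * E| * E' ≤ (b * v) * (20 / 19) := mul_le_mul q4 E4 hE'0.le hbv0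
      _ ≤ 11 / 10 * (b * v) := by nlinarith
  have r2 : |h.1 0 1| ≤ 2 / 10 := by
    have e1 : h.1 0 1 = (h.1 0 1 * E') * E := by
      rw [mul_assoc, mul_comm E' E, hEE, mul_one]
    rw [e1, abs_mul, abs_of_pos hE0]
    have : |h.1 0 1 * E'| ≤ 111 / 1000 := by
      rw [abs_le]
      constructor <;> linarith [a3.1, a3.2, d1.1, d1.2]
    calc |h.1 0 1 * E'| * E ≤ 111 / 1000 * (20 / 19) := mul_le_mul this E2 hE0.le (by norm_num)
      _ ≤ 2 / 10 := by norm_num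
  have e1 : h.1 1 1 = (h.1 1 1 * E') * E := by
    rw [mul_assoc, mul_comm E' E, hEE, mul_one]
  have u1 : 989 / 1000 ≤ h.1 1 1 * E' := by linarith [a2.1, a2.2, d2.1, d2.2]
  have u2 : h.1 1 1 * E' ≤ 1011 / 1000 := by linarith [a2.1, a2.2, d2.1, d2.2]
  refine ⟨r0, r1, r2, ?_, ?_⟩
  · rw [e1]
    nlinarith
  · rw [e1]
    nlinarith

theorem CTG_eight (h : SL(2, ℝ)) (s τ x b v : ℝ) (hb : 0 < b) (hb8 : b ≤ 1 / 100) (hv : 0 ≤ v)
    (hv1 : v ≤ 1) (hs : |s| ≤ 4) (hτ : |τ| ≤ 1 / 10) (hx : |x| ≤ 1 / 10)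
    (hq : bq b b (b * v) (h * lM s * aM τ * nM x)) : ∀ i j, |h.1 i j| ≤ 8 := by
  obtain ⟨q1, q2, q3, q4, q5⟩ := CTG_inv h s τ x b v hb8 hv hv1 hτ hx hb hq
  have hbv : b * v ≤ 1 / 100 := by nlinarith
  have a1 := abs_le.1 q1
  have a2 := abs_le.1 q2
  have c1 : |h.1 0 1 * s| ≤ 2 / 10 * 4 := by
    rw [abs_mul]
    exact mul_le_mul q3 hs (abs_nonneg _) (by norm_num)
  have c2 : |h.1 1 1 * s| ≤ 11 / 10 * 4 := by
    rw [abs_mul]
    refine mul_le_mul ?_ hs (abs_nonneg _) (by norm_num)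
    rw [abs_le]
    constructor <;> linarith
  have d1 := abs_le.1 c1
  have d2 := abs_le.1 c2
  intro i j
  fin_cases i <;> fin_cases j
  · show |h.1 0 0| ≤ 8
    rw [abs_le]
    constructor <;> linarith [a1.1, a1.2, d1.1, d1.2]
  · show |h.1 0 1| ≤ 8
    linarith
  · show |h.1 1 0| ≤ 8
    rw [abs_le]
    constructor <;> linarith [a2.1, a2.2, d2.1, d2.2]
  · show |h.1 1 1| ≤ 8
    rw [abs_le]
    constructor <;> linarith

theorem CTG_dist (h : SL(2, ℝ)) (s s' τ τ' x x' b v : ℝ) (hb : 0 < b) (hb8 : b ≤ 1 / 100)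
    (hv : 0 ≤ v) (hv1 : v ≤ 1) (hτ : |τ| ≤ 1 / 10) (hx : |x| ≤ 1 / 10) (hτ' : |τ'| ≤ 1 / 10)
    (hx' : |x'| ≤ 1 / 10) (hq : bq b b (b * v) (h * lM s * aM τ * nM x))
    (hq' : bq b b (b * v) (h * lM s' * aM τ' * nM x')) : |s - s'| ≤ v := by
  obtain ⟨q1, q2, q3, q4, q5⟩ := CTG_inv h s τ x b v hb8 hv hv1 hτ hx hb hq
  obtain ⟨r1, r2, r3, r4, r5⟩ := CTG_inv h s' τ' x' b v hb8 hv hv1 hτ' hx' hb hq'
  have e1 : h.1 1 1 * (s - s') = (h.1 1 0 + h.1 1 1 * s) - (h.1 1 0 + h.1 1 1 * s') := by ring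
  have e2 : |h.1 1 1 * (s - s')| ≤ 22 / 10 * (b * v) := by
    rw [e1]
    refine (abs_sub _ _).trans ?_
    linarith
  have e3 : 0 < h.1 1 1 := by linarith
  rw [abs_mul, abs_of_pos e3] at e2
  have e4 : 9 / 10 * |s - s'| ≤ h.1 1 1 * |s - s'| := mul_le_mul_of_nonneg_right q4 (abs_nonneg _)
  have e5 : b * v ≤ 1 / 100 * v := mul_le_mul_of_nonneg_right hb8 hv
  linarith [abs_nonneg (s - s')]

open Classical in
theorem CTG_main (Γ : Subgroup SL(2, ℝ)) (hΓ : QU.SurfaceGroup Γ) : ∃ C : ℝ, 0 < C ∧ ∀ (b k : ℝ) (A : Finset SL(2, ℝ)) (g : SL(2, ℝ)) (T : Finset ℤ), 0 < b → b ≤ 1 / 100 → 0 ≤ k →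
  (∀ m ∈ T, ∃ v τ x : ℝ, |v| ≤ 4 ∧ |τ| ≤ 1 / 10 ∧ |x| ≤ 1 / 10 ∧ m ≤ v * Real.exp k ∧ v * Real.exp k < m + 1 ∧ g * lM v * aM τ * nM x ∈ FW Γ A b (Real.exp (-k))) → (T.card : ℝ) ≤ C * A.card := by
  obtain ⟨N₀, hN₀⟩ := Pool.Agent.MS.HD2_fin Γ hΓ
  refine ⟨((N₀ : ℝ) + 1) * 3, by positivity, ?_⟩
  intro b k A g T hb hb8 hk hT
  have hek : Real.exp (-k) ≤ 1 := Real.exp_le_one_iff.2 (by linarith)
  have hek0 : 0 ≤ Real.exp (-k) := (Real.exp_pos _).le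
  let Fy : SL(2, ℝ) → Finset Γ := fun y => (hN₀ y g).1.toFinset
  let Jy : SL(2, ℝ) → Γ → Finset ℤ := fun y γ =>
    T.filter fun m => ∃ v τ x : ℝ, |v| ≤ 4 ∧ |τ| ≤ 1 / 10 ∧ |x| ≤ 1 / 10 ∧ (m : ℝ) ≤ v * Real.exp k ∧
      v * Real.exp k < m + 1 ∧
      bq b b (b * Real.exp (-k)) (y⁻¹ * (γ : SL(2, ℝ)) * g * lM v * aM τ * nM x)
  have hsub : T ⊆ A.biUnion fun y => (Fy y).biUnion fun γ => Jy y γ := by
    intro m hm
    obtain ⟨v, τ, x, h1, hτ, hx, h2, h3, y, hy, γ, hq⟩ := hT m hm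
    have hq' : bq b b (b * Real.exp (-k)) (y⁻¹ * (γ : SL(2, ℝ)) * g * lM v * aM τ * nM x) := by
      have e : y⁻¹ * (γ : SL(2, ℝ)) * g * lM v * aM τ * nM x =
          y⁻¹ * (γ : SL(2, ℝ)) * (g * lM v * aM τ * nM x) := by
        simp only [mul_assoc]
      rw [e]
      exact hq
    rw [Finset.mem_biUnion]
    refine ⟨y, hy, ?_⟩
    rw [Finset.mem_biUnion]
    refine ⟨γ, ?_, ?_⟩
    · rw [Set.Finite.mem_toFinset]
      exact CTG_eight _ v τ x b (Real.exp (-k)) hb hb8 hek0 hek h1 hτ hx hq'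
    · rw [Finset.mem_filter]
      exact ⟨hm, v, τ, x, h1, hτ, hx, h2, h3, hq'⟩
  have hone : ∀ y γ, ((Jy y γ).card : ℝ) ≤ 3 := by
    intro y γ
    refine (CTG_card (Jy y γ) 2 (by norm_num) fun i hi j hj => ?_).trans (by norm_num)
    rw [Finset.mem_filter] at hi hj
    obtain ⟨-, v, τ, x, -, hτ, hx, a1, a2, hqi⟩ := hi
    obtain ⟨-, v', τ', x', -, hτ', hx', b1, b2, hqj⟩ := hj
    have h1 := CTG_dist (y⁻¹ * (γ : SL(2, ℝ)) * g) v v' τ τ' x x' b (Real.exp (-k)) hb hb8 hek0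
      hek hτ hx hτ' hx' hqi hqj
    have h2 : |v * Real.exp k - v' * Real.exp k| ≤ 1 := by
      rw [← sub_mul, abs_mul, abs_of_pos (Real.exp_pos k)]
      calc |v - v'| * Real.exp k ≤ Real.exp (-k) * Real.exp k := mul_le_mul_of_nonneg_right h1 (Real.exp_pos k).le
        _ = 1 := by rw [← Real.exp_add, neg_add_cancel, Real.exp_zero]
    have h3 := abs_le.1 h2
    rw [abs_le]
    constructor <;> linarith [h3.1, h3.2]
  have hFy : ∀ y, ((Fy y).card : ℝ) ≤ (N₀ : ℝ) + 1 := by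
    intro y
    have h1 : (Fy y).card ≤ N₀ := by
      have := (hN₀ y g).2
      rw [Set.ncard_eq_toFinset_card _ (hN₀ y g).1] at this
      exact this
    have h2 : ((Fy y).card : ℝ) ≤ N₀ := by exact_mod_cast h1
    linarith
  have h1 : (T.card : ℝ) ≤ ∑ y ∈ A, ∑ γ ∈ Fy y, ((Jy y γ).card : ℝ) := by
    have h2 : T.card ≤ ∑ y ∈ A, ∑ γ ∈ Fy y, (Jy y γ).card :=
      (Finset.card_le_card hsub).trans (Finset.card_biUnion_le.trans (Finset.sum_le_sum fun y _ => Finset.card_biUnion_le))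
    exact_mod_cast h2
  refine h1.trans ?_
  calc ∑ y ∈ A, ∑ γ ∈ Fy y, ((Jy y γ).card : ℝ) ≤ ∑ y ∈ A, ∑ γ ∈ Fy y, (3 : ℝ) :=
        Finset.sum_le_sum fun y _ => Finset.sum_le_sum fun γ _ => hone y γ
    _ = ∑ y ∈ A, ((Fy y).card : ℝ) * 3 := by
        refine Finset.sum_congr rfl fun y _ => ?_
        rw [Finset.sum_const, nsmul_eq_mul]
    _ ≤ ∑ y ∈ A, ((N₀ : ℝ) + 1) * 3 := Finset.sum_le_sum fun y _ => mul_le_mul_of_nonneg_right (hFy y) (by norm_num)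
    _ = ((N₀ : ℝ) + 1) * 3 * A.card := by
        rw [Finset.sum_const, nsmul_eq_mul]
        ring

theorem CTG_proof : CTG_stmt := fun Γ hΓ => CTG_main Γ hΓ

end Pool.Agent.HH
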